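import Pool.Agent.helper41.HFE.Spec

/-!
# Project HFE, row F11: polynomials of bidegree `(1, 1)`
-/

set_option autoImplicit false

open Polynomial Module Pool.Agent.HFN

namespace Pool.Agent.HFE

noncomputable section

theorem F11_lin {p : ℂ[X]} (h : p.natDegree ≤ 1) : p = C (p.coeff 1) * X + C (p.coeff 0) :=
  Polynomial.eq_X_add_C_of_natDegree_le_one h

theorem F11_form {f : AA} (hx : dX f ≤ 1) (hy : dY f ≤ 1) :
    ∃ a b c d : ℂ, f = C (C a * X + C b) * X + C (C c * X + C d) := by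
  have hV : f ∈ V 1 1 := ⟨hx, hy⟩
  rw [mem_V_coeff] at hV
  have h1 : ∀ l, (f.coeff l).natDegree ≤ 1 := fun l =>
    natDegree_le_iff_coeff_eq_zero.2 fun N hN => hV N l (Or.inl hN)
  refine ⟨(f.coeff 1).coeff 1, (f.coeff 1).coeff 0, (f.coeff 0).coeff 1, (f.coeff 0).coeff 0, ?_⟩
  rw [← F11_lin (h1 1), ← F11_lin (h1 0)]
  exact Polynomial.eq_X_add_C_of_natDegree_le_one hy

theorem F11_ev (a b c d : ℂ) (z : ℂ × ℂ) :
    ev z (C (C a * X + C b) * X + C (C c * X + C d)) = a * z.1 * z.2 + b * z.2 + c * z.1 + d := by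
  rw [ev_add, ev_mul, ev_C, ev_X, ev_C]
  simp
  ring

theorem F11_unit {u : AA} (h : IsUnit u) : dX u = 0 ∧ dY u = 0 := by
  obtain ⟨v, hv⟩ := h.exists_right_inv
  have hu0 : u ≠ 0 := h.ne_zero
  have hv0 : v ≠ 0 := by
    rintro rfl
    rw [mul_zero] at hv
    exact zero_ne_one hv
  have h1 := dX_mul hu0 hv0
  have h2 := dY_mul hu0 hv0
  rw [hv, dX_one] at h1
  rw [hv, dY_one] at h2
  omega

theorem F11_C {g : AA} (hy : dY g = 0) : ∃ p : ℂ[X], g = C p :=
  ⟨g.coeff 0, Polynomial.eq_C_of_natDegree_eq_zero hy⟩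

theorem F11_const {g : AA} (hg : g ≠ 0) (hx : dX g = 0) (hy : dY g = 0) : IsUnit g := by
  obtain ⟨p, rfl⟩ := F11_C hy
  rw [dX_C] at hx
  have h1 := Polynomial.eq_C_of_natDegree_eq_zero hx
  rw [h1]
  have h2 : p.coeff 0 ≠ 0 := by
    intro h
    rw [h, C_0] at h1
    rw [h1, C_0] at hg
    exact hg rfl
  exact ((isUnit_iff_ne_zero.2 h2).map C).map C

theorem F11_x {g : AA} (hx : dX g = 1) (hy : dY g = 0) : ∃ u v : ℂ, u ≠ 0 ∧ g = C (C u * X + C v) := by
  obtain ⟨p, rfl⟩ := F11_C hy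
  rw [dX_C] at hx
  refine ⟨p.coeff 1, p.coeff 0, ?_, ?_⟩
  · have h1 : p ≠ 0 := by
      rintro rfl
      simp at hx
    have h2 := Polynomial.leadingCoeff_ne_zero.2 h1
    rwa [Polynomial.leadingCoeff, hx] at h2
  · rw [← F11_lin hx.le]

theorem F11_y {g : AA} (hx : dX g = 0) (hy : dY g = 1) : ∃ u v : ℂ, u ≠ 0 ∧ g = C (C u) * X + C (C v) := by
  obtain ⟨u, v, hu, h⟩ := F11_x (g := sw g) (by rw [dX_sw]; exact hy) (by rw [dY_sw]; exact hx)
  refine ⟨u, v, hu, ?_⟩
  have h1 : g = sw (sw g) := (sw_sw g).symm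
  rw [h1, h]
  unfold sw
  rw [Polynomial.Bivariate.swap_C]
  simp

theorem F11_mul {g h : AA} (hgx : dX g = 1) (hgy : dY g = 0) (hhx : dX h = 0) (hhy : dY h = 1) :
    ∃ (α β c : ℂ), c ≠ 0 ∧ g * h = c • (C (X - C α) * (X - C (C β)) : AA) := by
  obtain ⟨u, v, hu, rfl⟩ := F11_x hgx hgy
  obtain ⟨s, t, hs, rfl⟩ := F11_y hhx hhy
  refine ⟨-(v / u), -(t / s), u * s, mul_ne_zero hu hs, ?_⟩
  have e1 : (C u * X + C v : ℂ[X]) = C u * (X - C (-(v / u))) := by
    rw [mul_sub, ← C_mul]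
    have : u * -(v / u) = -v := by field_simp
    rw [this, C_neg, sub_neg_eq_add]
  have e2 : (C (C s) * X + C (C t) : AA) = C (C s) * (X - C (C (-(t / s)))) := by
    rw [mul_sub, ← C_mul, ← C_mul]
    have : s * -(t / s) = -t := by field_simp
    rw [this, C_neg, C_neg, sub_neg_eq_add]
  have e3 : ∀ (c : ℂ) (q : AA), c • q = C (C c) * q := by
    intro c q
    rw [← Polynomial.smul_eq_C_mul, ← Polynomial.algebraMap_eq, ← algebraMap_smul ℂ[X] c q]
  rw [e1, e2, e3, C_mul, C_mul, C_mul]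
  ring

theorem F11_irr {f : AA} (hx : dX f = 1) (hy : dY f = 1) (hf : ¬ Irreducible f) :
    ∃ (α β c : ℂ), c ≠ 0 ∧ f = c • (C (X - C α) * (X - C (C β)) : AA) := by
  have hnu : ¬ IsUnit f := fun h => by
    have := (F11_unit h).1
    omega
  have hf0 : f ≠ 0 := by
    rintro rfl
    simp at hx
  rw [irreducible_iff] at hf
  push Not at hf
  obtain ⟨g, h, hgh, hg, hh⟩ := hf hnu
  have hg0 : g ≠ 0 := by
    rintro rfl
    rw [zero_mul] at hgh
    exact hf0 hgh
  have hh0 : h ≠ 0 := by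
    rintro rfl
    rw [mul_zero] at hgh
    exact hf0 hgh
  have h1 := dX_mul hg0 hh0
  have h2 := dY_mul hg0 hh0
  rw [← hgh, hx] at h1
  rw [← hgh, hy] at h2
  have h3 : ¬ (dX g = 0 ∧ dY g = 0) := fun h => hg (F11_const hg0 h.1 h.2)
  have h4 : ¬ (dX h = 0 ∧ dY h = 0) := fun h' => hh (F11_const hh0 h'.1 h'.2)
  by_cases h5 : dX g = 1
  · rw [hgh]
    exact F11_mul h5 (by omega) (by omega) (by omega)
  · rw [hgh, mul_comm]
    exact F11_mul (by omega) (by omega) (by omega) (by omega)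

theorem F11 : F11_stmt := by
  refine ⟨?_, ?_, fun f hx hy hf => F11_irr hx hy hf⟩
  · rintro f ⟨hf, hx, hy⟩
    obtain ⟨a, b, c, d, hfe⟩ := F11_form hx.le hy.le
    refine ⟨a, b, c, d, fun h0 => ?_, fun z => by rw [hfe]; exact F11_ev a b c d z⟩
    have hac : ¬ (a = 0 ∧ c = 0) := by
      rintro ⟨rfl, rfl⟩
      have hC : ∀ r : ℂ, (C (C r) : AA) ∈ V 0 0 := fun r => ⟨by rw [dX_C, natDegree_C], by rw [dY_C]⟩
      have hX : (X : AA) ∈ V 0 1 := ⟨by rw [dX_X], by rw [dY_X]⟩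
      have h1 : f ∈ V 0 1 := by
        have e : f = C (C b) * X + C (C d) := by
          rw [hfe]
          simp
        rw [e]
        exact Submodule.add_mem _ (mul_mem_V (hC b) hX) (V_mono (le_refl 0) (Nat.zero_le 1) (hC d))
      have := h1.1
      omega
    have hab : ¬ (a = 0 ∧ b = 0) := by
      rintro ⟨rfl, rfl⟩
      have h1 : f = C (C c * X + C d) := by
        rw [hfe]
        simp
      have h2 := dY_C (C c * X + C d)
      rw [← h1] at h2
      omega
    have ha : a ≠ 0 := by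
      rintro rfl
      have hb : b ≠ 0 := fun h => hab ⟨rfl, h⟩
      have hc : c ≠ 0 := fun h => hac ⟨rfl, h⟩
      rw [zero_mul, zero_sub, neg_eq_zero] at h0
      exact (mul_ne_zero hb hc) h0
    have hfac : f = C (X + C (b / a)) * (C (C a) * X + C (C c)) := by
      have h1 : (C a * X + C b : ℂ[X]) = (X + C (b / a)) * C a := by
        rw [add_mul, ← C_mul, div_mul_cancel₀ _ ha, mul_comm]
      have h2 : (C c * X + C d : ℂ[X]) = (X + C (b / a)) * C c := by
        have h3 : b / a * c = d := by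
          field_simp
          linear_combination -h0
        rw [add_mul, ← C_mul, h3, mul_comm]
      rw [hfe, h1, h2, C_mul, C_mul]
      ring
    rcases hf.isUnit_or_isUnit hfac with h | h
    · have h1 := (F11_unit h).1
      rw [dX_C, natDegree_X_add_C] at h1
      omega
    · have h1 := (F11_unit h).2
      have h2 : dY (C (C a) * X + C (C c) : AA) = 1 := by
        unfold dY
        exact natDegree_linear (by rw [Ne, C_eq_zero]; exact ha)
      omega
  · have h1 : (C X - X : AA) = -(X - C X) := by ring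
    refine ⟨C X - X, ⟨?_, ?_, ?_⟩, fun z => ?_⟩
    · rw [h1]
      exact (Associated.refl (X - C X : AA)).neg_right.irreducible (Polynomial.irreducible_X_sub_C X)
    · unfold dX sw
      rw [map_sub, Polynomial.Bivariate.swap_C, Polynomial.Bivariate.swap_Y, map_X, natDegree_X_sub_C]
    · unfold dY
      rw [h1, natDegree_neg, natDegree_X_sub_C]
    · rw [ev_sub, ev_C, ev_X, eval_X]

end

end Pool.Agent.HFE
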