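import Pool.Agent.helper41.HFE.Spec

/-!
# Project HFE, row LAF: the length of the double points on a curve
-/

set_option autoImplicit false

open Polynomial Module Pool.Agent.HFN

namespace Pool.Agent.HFE

noncomputable section

theorem LAF_pt (f : AA) (z : ℂ × ℂ) [Decidable (ev z f = 0)] [Decidable (Db z f)] :
    wt (2 - od f z) + (2 * (if ev z f = 0 then 1 else 0) + (if Db z f then 1 else 0)) = 3 := by
  by_cases h1 : Db z f
  · have h2 : od f z = 2 := if_pos h1
    rw [h2, if_pos h1, if_pos h1.1]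
    rfl
  · by_cases h3 : ev z f = 0
    · have h2 : od f z = 1 := by
        unfold od
        rw [if_neg h1, if_pos h3]
      rw [h2, if_neg h1, if_pos h3]
      rfl
    · have h2 : od f z = 0 := by
        unfold od
        rw [if_neg h1, if_neg h3]
      rw [h2, if_neg h1, if_neg h3]
      rfl

theorem LAF_sum (Z : Finset (ℂ × ℂ)) (f : AA) : Wt Z (res two f) + La Z f = Wt Z two := by
  classical
  have h1 : La Z f = ∑ z ∈ Z, (2 * (if ev z f = 0 then 1 else 0) + (if Db z f then 1 else 0)) := by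
    unfold La nn sg
    rw [Finset.sum_add_distrib, ← Finset.mul_sum, Finset.card_filter, Finset.card_filter]
  have h2 : Wt Z two = ∑ z ∈ Z, 3 := rfl
  rw [h1, h2]
  unfold Wt
  rw [← Finset.sum_add_distrib]
  exact Finset.sum_congr rfl fun z _ => LAF_pt f z

theorem LAF (hCDJ : CDJ_stmt) (hRES : RES_stmt) : LAF_stmt := by
  intro Z f
  have hJ := hCDJ Z two (fun z => le_refl 2)
  have hR := hCDJ Z (res two f) (fun z => Nat.sub_le _ _)
  have hle : JJ Z two ≤ JJ Z two ⊔ Ideal.span {f} := le_sup_left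
  refine ⟨Fc_mono hle hJ.1, ?_⟩
  have hfin : FiniteDimensional ℂ (AA ⧸ ((JJ Z two).restrictScalars ℂ : Submodule ℂ AA)) := hJ.1
  have hle' : ((JJ Z two).restrictScalars ℂ : Submodule ℂ AA) ≤ (JJ Z two ⊔ Ideal.span {f}).restrictScalars ℂ :=
    fun g hg => hle hg
  set S : Submodule ℂ AA := (JJ Z two).restrictScalars ℂ with hS
  set T : Submodule ℂ AA := (JJ Z two ⊔ Ideal.span {f}).restrictScalars ℂ with hT
  -- the linear map
  set R : AA →ₗ[ℂ] AA ⧸ S := S.mkQ.comp (LinearMap.mulLeft ℂ f) with hRd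
  have hker : LinearMap.ker R = (JJ Z (res two f)).restrictScalars ℂ := by
    ext g
    rw [LinearMap.mem_ker]
    change S.mkQ (f * g) = 0 ↔ g ∈ JJ Z (res two f)
    rw [Submodule.mkQ_apply, Submodule.Quotient.mk_eq_zero]
    change f * g ∈ JJ Z two ↔ _
    rw [mem_JJ, mem_JJ]
    exact forall₂_congr fun z _ => hRES 2 z f g le_rfl
  have hrange : LinearMap.range R = T.map S.mkQ := by
    ext q
    constructor
    · rintro ⟨g, rfl⟩
      refine ⟨f * g, ?_, rfl⟩
      change f * g ∈ JJ Z two ⊔ Ideal.span {f}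
      exact Ideal.mul_mem_right _ _ (Ideal.mem_sup_right (Ideal.mem_span_singleton_self f))
    · rintro ⟨u, hu, rfl⟩
      change u ∈ JJ Z two ⊔ Ideal.span {f} at hu
      obtain ⟨a, ha, b, hb, rfl⟩ := Submodule.mem_sup.1 hu
      obtain ⟨g, rfl⟩ := Ideal.mem_span_singleton.1 hb
      refine ⟨g, ?_⟩
      change S.mkQ (f * g) = S.mkQ (a + f * g)
      have h1 : S.mkQ a = 0 := by
        rw [Submodule.mkQ_apply, Submodule.Quotient.mk_eq_zero]
        exact ha
      rw [map_add, h1, zero_add]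
  have h1 : finrank ℂ (T.map S.mkQ : Submodule ℂ (AA ⧸ S)) = Wt Z (res two f) := by
    rw [← hrange, ← hR.2]
    unfold cod
    rw [← hker]
    exact (R.quotKerEquivRange).finrank_eq.symm
  have h2 : finrank ℂ ((AA ⧸ S) ⧸ T.map S.mkQ) = cod (JJ Z two ⊔ Ideal.span {f}) :=
    (Submodule.quotientQuotientEquivQuotient S T hle').finrank_eq
  have h3 := Submodule.finrank_quotient_add_finrank (T.map S.mkQ)
  have h4 : finrank ℂ (AA ⧸ S) = Wt Z two := hJ.2
  have h5 := LAF_sum Z f
  omega

end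

end Pool.Agent.HFE
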