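import Pool.Agent.helper41.HFE.SpecD

/-!
# Project HFE (MP_3221a1_ag), row hfe:GN1: finite sets
-/

set_option autoImplicit false

open Polynomial Module Pool.Agent.HFN

namespace Pool.Agent.HFE

noncomputable section

theorem GN1_ev_eval (p : AA) (q : ℂ[X]) (u : ℂ) : (p.eval q).eval u = ev (u, q.eval u) p := by
  rw [ev_def]
  have h1 : (evalRingHom u) (p.eval₂ (RingHom.id ℂ[X]) q) =
      p.eval₂ ((evalRingHom u).comp (RingHom.id ℂ[X])) ((evalRingHom u) q) := hom_eval₂ _ _ _ _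
  have h2 : (evalRingHom u) (p.eval₂ (RingHom.id ℂ[X]) (C (q.eval u))) =
      p.eval₂ ((evalRingHom u).comp (RingHom.id ℂ[X])) ((evalRingHom u) (C (q.eval u))) := hom_eval₂ _ _ _ _
  have h3 : (evalRingHom u) (C (q.eval u)) = (evalRingHom u) q := by
    simp only [coe_evalRingHom, eval_C]
  rw [h3, ← h1] at h2
  exact h2.symm

theorem GN1_sw (b : ℕ) : sw (X - C (X ^ b) : AA) = g0 b := by
  unfold g0 sw
  rw [map_sub, Polynomial.Bivariate.swap_Y, Polynomial.Bivariate.swap_C, Polynomial.map_pow, Polynomial.map_X]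

theorem GN1_not_unit (b : ℕ) (hb : 1 ≤ b) : ¬ IsUnit (g0 b) := by
  intro h
  obtain ⟨v, hv⟩ := h.exists_right_inv
  have h1 : ev (0, 0) (g0 b * v) = 1 := by rw [hv, ev_one]
  rw [ev_mul] at h1
  have h2 : ev (0, 0) (g0 b) = 0 := by
    unfold g0
    rw [ev_sub, ev_C, ev_pow, ev_X, eval_X, zero_pow (by omega), sub_zero]
  rw [h2, zero_mul] at h1
  exact zero_ne_one h1

theorem GN1_fin_pow (b : ℕ) (hb : 1 ≤ b) (s : Set ℂ) (hs : s.Finite) : {t : ℂ | t ^ b ∈ s}.Finite := by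
  have h := Set.Finite.preimage' (f := fun t : ℂ => t ^ b) hs (fun x _ => ?_)
  · exact h
  · have h1 : ((fun t : ℂ => t ^ b) ⁻¹' {x}) ⊆ ((nthRoots b x).toFinset : Set ℂ) := by
      intro t ht
      have h2 : t ^ b = x := ht
      rw [Finset.mem_coe, Multiset.mem_toFinset, mem_nthRoots (by omega)]
      exact h2
    exact (Finset.finite_toSet _).subset h1

theorem GN1 (hHIT : HIT_stmt) : GN1_stmt := by
  intro g b hg hX hY hb hna ζ hζ
  obtain ⟨h1, h2⟩ := hHIT g hg hX hY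
  have hζ0 : ζ ≠ 0 := by
    rintro rfl
    rw [zero_pow (by omega)] at hζ
    exact zero_ne_one hζ
  have hfX : ∀ c : ℂ, {x : ℂ | ev (x, c) g = 0}.Finite := by
    intro c
    by_contra h
    obtain ⟨S, hS, hc⟩ := Set.Infinite.exists_subset_card_eq h (dX g + 1)
    have h3 := h2 c S (fun x hx => hS (Finset.mem_coe.2 hx))
    omega
  have hfY : ∀ c : ℂ, {y : ℂ | ev (c, y) g = 0}.Finite := by
    intro c
    by_contra h
    obtain ⟨S, hS, hc⟩ := Set.Infinite.exists_subset_card_eq h (dY g + 1)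
    have h3 := h1 c S (fun y hy => hS (Finset.mem_coe.2 hy))
    omega
  refine ⟨fun c => GN1_fin_pow b hb _ (hfX c), fun c => ?_, ?_⟩
  · exact Set.Finite.preimage (fun a _ a' _ h => mul_left_cancel₀ hζ0 h) (hfY c)
  · have hR0 : (sw g).eval (X ^ b : ℂ[X]) ≠ 0 := by
      intro h0
      have h3 : (X - C (X ^ b) : AA) ∣ sw g := dvd_iff_isRoot.2 h0
      have h4 : g0 b ∣ g := by
        obtain ⟨q, hq⟩ := h3
        refine ⟨sw q, ?_⟩
        have h5 : sw (sw g) = sw ((X - C (X ^ b)) * q) := by rw [hq]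
        rw [sw_sw, map_mul, GN1_sw] at h5
        exact h5
      obtain ⟨q, hq⟩ := h4
      rcases hg.isUnit_or_isUnit hq with h5 | h5
      · exact GN1_not_unit b hb h5
      · refine hna ?_
        obtain ⟨u, hu⟩ := h5
        refine Associated.symm ⟨u, ?_⟩
        rw [hu, ← hq]
    have hfin : {u : ℂ | ((sw g).eval (X ^ b : ℂ[X])).eval u = 0}.Finite := by
      have h3 : {u : ℂ | ((sw g).eval (X ^ b : ℂ[X])).eval u = 0} ⊆ (((sw g).eval (X ^ b : ℂ[X])).roots.toFinset : Set ℂ) := by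
        intro u hu
        rw [Finset.mem_coe, Multiset.mem_toFinset, mem_roots hR0]
        exact hu
      exact (Finset.finite_toSet _).subset h3
    have h4 : {t : ℂ | ev (t ^ b, ζ * t) g = 0} ⊆ (fun t : ℂ => ζ * t) ⁻¹' {u : ℂ | ((sw g).eval (X ^ b : ℂ[X])).eval u = 0} := by
      intro t ht
      have h5 : ev (t ^ b, ζ * t) g = 0 := ht
      show ((sw g).eval (X ^ b : ℂ[X])).eval (ζ * t) = 0
      rw [GN1_ev_eval, ev_sw]
      have h6 : (ζ * t) ^ b = t ^ b := by rw [mul_pow, hζ, one_mul]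
      have h7 : (((ζ * t, eval (ζ * t) (X ^ b : ℂ[X])) : ℂ × ℂ)).swap = (t ^ b, ζ * t) := by
        rw [eval_pow, eval_X, h6]
        rfl
      rw [h7]
      exact h5
    exact (Set.Finite.preimage (fun a _ a' _ h => mul_left_cancel₀ hζ0 h) hfin).subset h4

end

end Pool.Agent.HFE
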