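import Pool.Agent.helper41.HFE.SpecD

/-!
# Project HFE (MP_3221a1_ag), row hfe:UNQ: two Big curves are associated
-/

set_option autoImplicit false

open Polynomial Module Pool.Agent.HFN

namespace Pool.Agent.HFE

noncomputable section

/-- `w ≥ 5 ρ` -/
theorem UNQ_w (r w : ℕ) (hw : 25 * r ≤ w * w) : 5 * Real.sqrt r ≤ w := by
  have h1 : (25 : ℝ) * r ≤ (w : ℝ) * w := by exact_mod_cast hw
  have h2 : Real.sqrt r * Real.sqrt r = r := Real.mul_self_sqrt (Nat.cast_nonneg r)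
  have h3 : 0 ≤ Real.sqrt r := Real.sqrt_nonneg _
  have h4 : (0 : ℝ) ≤ w := Nat.cast_nonneg w
  nlinarith

theorem UNQ_s (r w s v : ℕ) (hr : 25 < r) (hw : 25 * r ≤ w * w) (hA : (w + 1) * s + 2 * v ≤ 2 * r) :
    (s : ℝ) ≤ 2 / 5 * Real.sqrt r := by
  have h0 := UNQ_w r w hw
  have h1 : ((w : ℝ) + 1) * s + 2 * v ≤ 2 * r := by exact_mod_cast hA
  have h2 : Real.sqrt r * Real.sqrt r = r := Real.mul_self_sqrt (Nat.cast_nonneg r)
  have h3 : 0 < Real.sqrt r := Real.sqrt_pos.2 (by exact_mod_cast (by omega : 0 < r))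
  have h4 : (0 : ℝ) ≤ v := Nat.cast_nonneg v
  have h5 : (0 : ℝ) ≤ s := Nat.cast_nonneg s
  have h6 : 5 * Real.sqrt r * s ≤ 2 * (Real.sqrt r * Real.sqrt r) := by
    have h7 : 5 * Real.sqrt r * s ≤ w * s := mul_le_mul_of_nonneg_right h0 h5
    rw [h2]
    nlinarith
  have h8 : Real.sqrt r * (5 * s) ≤ Real.sqrt r * (2 * Real.sqrt r) := by nlinarith
  have h9 := le_of_mul_le_mul_left h8 h3
  linarith

theorem UNQ_num1 (r v v' w w' s s' β β' n : ℕ) (hr : 25 < r) (hw : 25 * r ≤ w * w) (hw' : 25 * r ≤ w' * w')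
    (hA : (w + 1) * s + 2 * v ≤ 2 * r) (hA' : (w' + 1) * s' + 2 * v' ≤ 2 * r) (hB : r + 3 + w * β ≤ 2 * v + s)
    (hB' : r + 3 + w' * β' ≤ 2 * v' + s') (hS : v + v' ≤ r + n) (hn : n ≤ β * β' + β + β' + 2) :
    β = 0 ∧ β' = 0 := by
  have hρ0 : 5 < Real.sqrt r := by
    rw [show (5 : ℝ) = Real.sqrt 25 by rw [show (25 : ℝ) = 5 ^ 2 by norm_num]; exact (Real.sqrt_sq (by norm_num)).symm]
    exact Real.sqrt_lt_sqrt (by norm_num) (by exact_mod_cast hr)
  have h2 : Real.sqrt r * Real.sqrt r = r := Real.mul_self_sqrt (Nat.cast_nonneg r)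
  have e1 := UNQ_w r w hw
  have e2 := UNQ_w r w' hw'
  have s1 := UNQ_s r w s v hr hw hA
  have s2 := UNQ_s r w' s' v' hr hw' hA'
  have c1 : w * β ≤ r := by
    have h1 : s ≤ (w + 1) * s := Nat.le_mul_of_pos_left _ (Nat.succ_pos w)
    omega
  have c2 : w' * β' ≤ r := by
    have h1 : s' ≤ (w' + 1) * s' := Nat.le_mul_of_pos_left _ (Nat.succ_pos w')
    omega
  generalize hρ : Real.sqrt r = ρ at *
  have b1 : (β : ℝ) ≤ ρ / 5 := by
    have h3 : (w : ℝ) * β ≤ r := by exact_mod_cast c1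
    have h4 : 5 * ρ * β ≤ w * β := mul_le_mul_of_nonneg_right e1 (Nat.cast_nonneg β)
    have h5 : ρ * (5 * β) ≤ ρ * ρ := by rw [h2]; nlinarith
    have h6 := le_of_mul_le_mul_left h5 (by linarith)
    linarith
  have b2 : (β' : ℝ) ≤ ρ / 5 := by
    have h3 : (w' : ℝ) * β' ≤ r := by exact_mod_cast c2
    have h4 : 5 * ρ * β' ≤ w' * β' := mul_le_mul_of_nonneg_right e2 (Nat.cast_nonneg β')
    have h5 : ρ * (5 * β') ≤ ρ * ρ := by rw [h2]; nlinarith
    have h6 := le_of_mul_le_mul_left h5 (by linarith)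
    linarith
  have t1 : 2 * r + 6 + w * β + w' * β' ≤ 2 * r + 2 * (β * β' + β + β' + 2) + s + s' := by
    have h7 : v + v' ≤ r + (β * β' + β + β' + 2) := by omega
    generalize w * β = A at *
    generalize w' * β' = A' at *
    generalize β * β' = E at *
    omega
  have t2 : (2 : ℝ) * r + 6 + w * β + w' * β' ≤ 2 * r + 2 * (β * β' + β + β' + 2) + s + s' := by exact_mod_cast t1
  have q0 : (0 : ℝ) ≤ β := Nat.cast_nonneg β
  have q1 : (0 : ℝ) ≤ β' := Nat.cast_nonneg β'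
  have t3 : 5 * ρ * β ≤ w * β := mul_le_mul_of_nonneg_right e1 q0
  have t4 : 5 * ρ * β' ≤ w' * β' := mul_le_mul_of_nonneg_right e2 q1
  have t5 : (β : ℝ) * β' ≤ ρ / 5 * β' := mul_le_mul_of_nonneg_right b1 q1
  have t6 : (β : ℝ) * β' ≤ ρ / 5 * β := by
    rw [mul_comm]
    exact mul_le_mul_of_nonneg_right b2 q0
  have t7 : 2 + (24 / 5 * ρ - 2) * (β + β') ≤ 4 / 5 * ρ := by nlinarith
  by_contra hne
  have t8 : (1 : ℝ) ≤ β + β' := by
    have h8 : 1 ≤ β + β' := by omega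
    exact_mod_cast h8
  have t9 : (24 / 5 * ρ - 2) * 1 ≤ (24 / 5 * ρ - 2) * (β + β') := mul_le_mul_of_nonneg_left t8 (by linarith)
  linarith

theorem UNQ_num2 (r v v' w w' s s' m : ℕ) (hr : 25 < r) (hw : 25 * r ≤ w * w) (hw' : 25 * r ≤ w' * w')
    (hA : (w + 1) * s + 2 * v ≤ 2 * r) (hA' : (w' + 1) * s' + 2 * v' ≤ 2 * r) (hB : r + 3 ≤ 2 * v + s)
    (hB' : r + 3 ≤ 2 * v' + s') (hS : v + v' + m ≤ r + 3) (hm : w < 2 * m) : False := by
  have e1 := UNQ_w r w hw
  have s1 := UNQ_s r w s v hr hw hA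
  have s2 := UNQ_s r w' s' v' hr hw' hA'
  have h3 : 0 < Real.sqrt r := Real.sqrt_pos.2 (by exact_mod_cast (by omega : 0 < r))
  have h1 : w < s + s' := by omega
  have h2 : (w : ℝ) < s + s' := by exact_mod_cast h1
  linarith

open Classical in
theorem UNQ_set (Z A A' R : Finset (ℂ × ℂ)) (hA : A ⊆ Z) (hA' : A' ⊆ Z) (hR : R ⊆ Z) (h0 : A ∩ R = ∅)
    (h1 : (A' ∩ R).card ≤ 1) : A.card + A'.card + R.card ≤ Z.card + (A ∩ A').card + 1 := by
  have e1 := Finset.card_union_add_card_inter A A'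
  have e2 := Finset.card_union_add_card_inter (A ∪ A') R
  have e3 : ((A ∪ A') ∪ R).card ≤ Z.card := Finset.card_le_card (Finset.union_subset (Finset.union_subset hA hA') hR)
  have e4 : ((A ∪ A') ∩ R).card ≤ (A' ∩ R).card := by
    apply Finset.card_le_card
    rw [Finset.union_inter_distrib_right, h0, Finset.empty_union]
  omega

/-- the final step for a curve `g` with `s ≠ 0` -/
theorem UNQ_fin (hHIT : HIT_stmt) (Z : Finset (ℂ × ℂ)) (g g' : AA) (hg' : Irreducible g') (hX' : dX g' = 1) (hY' : dY g' = 1)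
    (w : ℕ) (hS1 : ((Z.filter fun z => ev z g = 0) ∩ (Z.filter fun z => ev z g' = 0)).card ≤ 2)
    (h : (∃ y : ℂ, w < 2 * mr Z y ∧ ∀ z ∈ Z, z.2 = y → ev z g ≠ 0) ∨ ∃ x : ℂ, w < 2 * nc Z x ∧ ∀ z ∈ Z, z.1 = x → ev z g ≠ 0) :
    ∃ m : ℕ, w < 2 * m ∧ nn Z g + nn Z g' + m ≤ Z.card + 3 := by
  classical
  obtain ⟨i1, i2⟩ := hHIT g' hg' (by omega) (by omega)
  have key : ∀ R : Finset (ℂ × ℂ), R ⊆ Z → (∀ z ∈ R, ev z g ≠ 0) → ((Z.filter fun z => ev z g' = 0) ∩ R).card ≤ 1 →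
      nn Z g + nn Z g' + R.card ≤ Z.card + 3 := by
    intro R hR h0 h1
    have h2 := UNQ_set Z (Z.filter fun z => ev z g = 0) (Z.filter fun z => ev z g' = 0) R (Finset.filter_subset _ _)
      (Finset.filter_subset _ _) hR ?_ h1
    · have e1 : nn Z g = (Z.filter fun z => ev z g = 0).card := by
        unfold nn
        congr
      have e2 : nn Z g' = (Z.filter fun z => ev z g' = 0).card := by
        unfold nn
        congr
      rw [e1, e2]
      omega
    · rw [Finset.eq_empty_iff_forall_notMem]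
      intro z hz
      rw [Finset.mem_inter, Finset.mem_filter] at hz
      exact h0 z hz.2 hz.1.2
  rcases h with ⟨y, hy, hy'⟩ | ⟨x, hx, hx'⟩
  · refine ⟨mr Z y, hy, ?_⟩
    have e0 : mr Z y = (Z.filter fun z => z.2 = y).card := by
      unfold mr
      congr
    rw [e0]
    refine key _ (Finset.filter_subset _ _) (fun z hz => ?_) ?_
    · rw [Finset.mem_filter] at hz
      exact hy' z hz.1 hz.2
    · have h3 : Set.InjOn Prod.fst (((Z.filter fun z => ev z g' = 0) ∩ (Z.filter fun z => z.2 = y) : Finset (ℂ × ℂ)) : Set (ℂ × ℂ)) := by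
        intro a ha a' ha' e
        rw [Finset.mem_coe, Finset.mem_inter, Finset.mem_filter, Finset.mem_filter] at ha ha'
        exact Prod.ext e (by rw [ha.2.2, ha'.2.2])
      rw [← Finset.card_image_of_injOn h3]
      rw [← hX']
      refine i2 y _ fun x hx => ?_
      rw [Finset.mem_image] at hx
      obtain ⟨a, ha, rfl⟩ := hx
      rw [Finset.mem_inter, Finset.mem_filter, Finset.mem_filter] at ha
      have h4 : (a.1, y) = a := Prod.ext rfl ha.2.2.symm
      rw [h4]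
      exact ha.1.2
  · refine ⟨nc Z x, hx, ?_⟩
    have e0 : nc Z x = (Z.filter fun z => z.1 = x).card := by
      unfold nc
      congr
    rw [e0]
    refine key _ (Finset.filter_subset _ _) (fun z hz => ?_) ?_
    · rw [Finset.mem_filter] at hz
      exact hx' z hz.1 hz.2
    · have h3 : Set.InjOn Prod.snd (((Z.filter fun z => ev z g' = 0) ∩ (Z.filter fun z => z.1 = x) : Finset (ℂ × ℂ)) : Set (ℂ × ℂ)) := by
        intro a ha a' ha' e
        rw [Finset.mem_coe, Finset.mem_inter, Finset.mem_filter, Finset.mem_filter] at ha ha'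
        exact Prod.ext (by rw [ha.2.2, ha'.2.2]) e
      rw [← Finset.card_image_of_injOn h3]
      rw [← hY']
      refine i1 x _ fun y hy => ?_
      rw [Finset.mem_image] at hy
      obtain ⟨a, ha, rfl⟩ := hy
      rw [Finset.mem_inter, Finset.mem_filter, Finset.mem_filter] at ha
      have h4 : (x, a.2) = a := Prod.ext ha.2.2.symm rfl
      rw [h4]
      exact ha.1.2

theorem UNQ (hBZT : BZT_stmt) (hHIT : HIT_stmt) : UNQ_stmt := by
  classical
  intro Z g g' hg hg'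
  obtain ⟨gi, gt, gX, gY, hr, w, s, hw, hA, hB, hs⟩ := hg
  obtain ⟨gi', gt', gX', gY', _, w', s', hw', hA', hB', hs'⟩ := hg'
  by_contra hna
  have hnd : ¬ g ∣ g' := fun h => hna (gi.associated_of_dvd gi' h)
  have hS0 := hBZT g g' gi hnd (dX g') (dY g') (mem_V.2 ⟨le_refl _, le_refl _⟩) ∅
    ((Z.filter fun z => ev z g = 0) ∩ (Z.filter fun z => ev z g' = 0)) (Finset.disjoint_empty_left _)
    (fun z hz => absurd hz (Finset.notMem_empty z)) (fun z hz => by
      rw [Finset.mem_inter, Finset.mem_filter, Finset.mem_filter] at hz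
      exact ⟨hz.1.2, hz.2.2⟩)
  rw [Finset.card_empty, mul_zero, zero_add] at hS0
  have e1 : nn Z g = (Z.filter fun z => ev z g = 0).card := by
    unfold nn
    congr
  have e2 : nn Z g' = (Z.filter fun z => ev z g' = 0).card := by
    unfold nn
    congr
  have hU : nn Z g + nn Z g' ≤ Z.card + ((Z.filter fun z => ev z g = 0) ∩ (Z.filter fun z => ev z g' = 0)).card := by
    have h1 := Finset.card_union_add_card_inter (Z.filter fun z => ev z g = 0) (Z.filter fun z => ev z g' = 0)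
    have h2 : ((Z.filter fun z => ev z g = 0) ∪ (Z.filter fun z => ev z g' = 0)).card ≤ Z.card :=
      Finset.card_le_card (Finset.union_subset (Finset.filter_subset _ _) (Finset.filter_subset _ _))
    rw [e1, e2]
    omega
  have hip : ip (dX g') (dY g') g ≤ (dX g * dY g - 1) * (dX g' * dY g' - 1) + (dX g * dY g - 1) + (dX g' * dY g' - 1) + 2 := by
    unfold ip
    have hx : ∃ a, dX g = a + 1 := ⟨dX g - 1, by omega⟩
    have hy : ∃ a, dY g = a + 1 := ⟨dY g - 1, by omega⟩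
    have hx' : ∃ a, dX g' = a + 1 := ⟨dX g' - 1, by omega⟩
    have hy' : ∃ a, dY g' = a + 1 := ⟨dY g' - 1, by omega⟩
    obtain ⟨a, ha⟩ := hx
    obtain ⟨b, hb⟩ := hy
    obtain ⟨a', ha'⟩ := hx'
    obtain ⟨b', hb'⟩ := hy'
    rcases gt with h | h <;> rcases gt' with h' | h'
    · rw [h, h', hb, hb']
      simp only [one_mul, mul_one, Nat.add_sub_cancel]
      have := Nat.zero_le (b * b')
      nlinarith
    · rw [h, h', hb, ha']
      simp only [one_mul, mul_one, Nat.add_sub_cancel]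
      nlinarith
    · rw [h, h', ha, hb']
      simp only [one_mul, mul_one, Nat.add_sub_cancel]
      nlinarith
    · rw [h, h', ha, ha']
      simp only [one_mul, mul_one, Nat.add_sub_cancel]
      have := Nat.zero_le (a * a')
      nlinarith
  obtain ⟨hβ, hβ'⟩ := UNQ_num1 Z.card (nn Z g) (nn Z g') w w' s s' (dX g * dY g - 1) (dX g' * dY g' - 1) _ hr hw hw' hA hA' hB hB' hU
    (le_trans hS0 hip)
  have hX1 : dX g = 1 ∧ dY g = 1 := by
    have h1 : dX g * dY g = 1 := by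
      have h2 : 0 < dX g * dY g := Nat.mul_pos (by omega) (by omega)
      omega
    exact ⟨Nat.eq_one_of_mul_eq_one_right h1, Nat.eq_one_of_mul_eq_one_left h1⟩
  have hX1' : dX g' = 1 ∧ dY g' = 1 := by
    have h1 : dX g' * dY g' = 1 := by
      have h2 : 0 < dX g' * dY g' := Nat.mul_pos (by omega) (by omega)
      omega
    exact ⟨Nat.eq_one_of_mul_eq_one_right h1, Nat.eq_one_of_mul_eq_one_left h1⟩
  rw [hβ, mul_zero, add_zero] at hB
  rw [hβ', mul_zero, add_zero] at hB'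
  have hS2 : ((Z.filter fun z => ev z g = 0) ∩ (Z.filter fun z => ev z g' = 0)).card ≤ 2 := by
    refine le_trans hS0 ?_
    unfold ip
    rw [hX1.1, hX1.2, hX1'.1, hX1'.2]
  have hS3 : ((Z.filter fun z => ev z g' = 0) ∩ (Z.filter fun z => ev z g = 0)).card ≤ 2 := by
    rw [Finset.inter_comm]
    exact hS2
  rcases hs with h0 | h0
  · rcases hs' with h0' | h0'
    · rw [h0] at hB
      rw [h0'] at hB'
      omega
    · obtain ⟨m, hm, hm'⟩ := UNQ_fin hHIT Z g' g gi hX1.1 hX1.2 w' hS3 h0'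
      exact UNQ_num2 Z.card (nn Z g') (nn Z g) w' w s' s m hr hw' hw hA' hA hB' hB hm' hm
  · obtain ⟨m, hm, hm'⟩ := UNQ_fin hHIT Z g g' gi' hX1'.1 hX1'.2 w hS2 h0
    exact UNQ_num2 Z.card (nn Z g) (nn Z g') w w' s s' m hr hw hw' hA hA' hB hB' hm' hm

end

end Pool.Agent.HFE
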